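import Mathlib

/-!
# P4-sets versus P2-sets (MP_71efc4)

For a finite abelian group `G` of order `n ≥ 10` the question asks whether every P4-set of `G` is a
P2-set. We show that this is false: in `G = ℤ/10` the set `A = {1, 2, 5, 6}` has
`|A| = 4 = c(G) - 1 = c₀(G) - 1`, it satisfies `Σ* A = G ∖ {0}`, so that it is a P4-set, but
`Σ A = G`, so that it is not a P2-set.
-/

namespace Pool.Agent.Results.MP_71efc4_nt.Disproof

/-- `Σ A`: all subset sums of `A` (the empty sum included). -/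
def subsetSums {G : Type} [AddCommGroup G] (A : Finset G) : Set G :=
  {g | ∃ s : Finset G, s ⊆ A ∧ ∑ x ∈ s, x = g}

/-- `Σ* A`: all sums over nonempty subsets of `A`. -/
def nonemptySubsetSums {G : Type} [AddCommGroup G] (A : Finset G) : Set G :=
  {g | ∃ s : Finset G, s ⊆ A ∧ s.Nonempty ∧ ∑ x ∈ s, x = g}

/-- `c₀(G)`: the least `m` such that every `A ⊆ G ∖ {0}` with `|A| ≥ m` satisfies `Σ A = G`. -/
noncomputable def c0 (G : Type) [AddCommGroup G] : ℕ :=
  sInf {m | ∀ A : Finset G, (0 : G) ∉ A → m ≤ A.card → subsetSums A = Set.univ}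

/-- `c(G)`, the critical number: the least `m` such that every `A ⊆ G ∖ {0}` with `|A| ≥ m`
satisfies `Σ* A = G`. -/
noncomputable def c (G : Type) [AddCommGroup G] : ℕ :=
  sInf {m | ∀ A : Finset G, (0 : G) ∉ A → m ≤ A.card → nonemptySubsetSums A = Set.univ}

/-- A P2-set: `A ⊆ G ∖ {0}`, `|A| = c₀(G) - 1` and `Σ A ≠ G`. -/
def IsP2Set {G : Type} [AddCommGroup G] (A : Finset G) : Prop :=
  (0 : G) ∉ A ∧ A.card + 1 = c0 G ∧ subsetSums A ≠ Set.univ

/-- A P4-set: `A ⊆ G ∖ {0}`, `|A| = c(G) - 1` and `Σ* A ≠ G`. -/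
def IsP4Set {G : Type} [AddCommGroup G] (A : Finset G) : Prop :=
  (0 : G) ∉ A ∧ A.card + 1 = c G ∧ nonemptySubsetSums A ≠ Set.univ

/-- All five-element subsets of `ℤ/10 ∖ {0}` have all of `ℤ/10` as nonempty subset sums. -/
theorem five_check : ∀ A ∈ Finset.powersetCard 5 ((Finset.univ : Finset (ZMod 10)).erase 0),
    ∀ g : ZMod 10, ∃ s ∈ A.powerset, s.Nonempty ∧ ∑ x ∈ s, x = g := by
  decide +kernel

theorem four_check : ∀ s ∈ ({1, 2, 5, 6} : Finset (ZMod 10)).powerset,
    s.Nonempty → ∑ x ∈ s, x ≠ 0 := by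
  decide +kernel

theorem four_full : ∀ g : ZMod 10, ∃ s ∈ ({1, 2, 5, 6} : Finset (ZMod 10)).powerset,
    ∑ x ∈ s, x = g := by
  decide +kernel

theorem five_le {A : Finset (ZMod 10)} (h0 : (0 : ZMod 10) ∉ A) (h5 : 5 ≤ A.card) :
    nonemptySubsetSums A = Set.univ := by
  obtain ⟨B, hBA, hB⟩ := Finset.exists_subset_card_eq h5
  rw [Set.eq_univ_iff_forall]
  intro g
  have hmem : B ∈ Finset.powersetCard 5 ((Finset.univ : Finset (ZMod 10)).erase 0) := by
    rw [Finset.mem_powersetCard]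
    refine ⟨?_, hB⟩
    intro x hx
    rw [Finset.mem_erase]
    exact ⟨fun h => h0 (h ▸ hBA hx), Finset.mem_univ _⟩
  obtain ⟨s, hs, hne, hsum⟩ := five_check B hmem g
  exact ⟨s, (Finset.mem_powerset.1 hs).trans hBA, hne, hsum⟩

theorem c_eq : c (ZMod 10) = 5 := by
  unfold c
  apply le_antisymm
  · apply Nat.sInf_le
    intro A h0 h5
    exact five_le h0 h5
  · apply le_csInf
    · exact ⟨5, fun A h0 h5 => five_le h0 h5⟩
    · intro m hm
      by_contra hlt
      push Not at hlt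
      have h := hm ({1, 2, 5, 6} : Finset (ZMod 10)) (by decide)
        (le_trans (Nat.lt_succ_iff.1 hlt) (by decide))
      have h0 : (0 : ZMod 10) ∈ nonemptySubsetSums ({1, 2, 5, 6} : Finset (ZMod 10)) := by
        rw [h]; trivial
      obtain ⟨s, hs, hne, hsum⟩ := h0
      exact four_check s (Finset.mem_powerset.2 hs) hne hsum

/-- There is a P4-set that is not a P2-set in a group of order at least `10`. -/
theorem result : ¬ ∀ (G : Type) [AddCommGroup G] [Fintype G], 10 ≤ Fintype.card G →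
    ∀ A : Finset G, IsP4Set A → IsP2Set A := by
  intro h
  have h1 : IsP4Set ({1, 2, 5, 6} : Finset (ZMod 10)) := by
    refine ⟨by decide, ?_, ?_⟩
    · rw [c_eq]; decide
    · intro hu
      have h0 : (0 : ZMod 10) ∈ nonemptySubsetSums ({1, 2, 5, 6} : Finset (ZMod 10)) := by
        rw [hu]; trivial
      obtain ⟨s, hs, hne, hsum⟩ := h0
      exact four_check s (Finset.mem_powerset.2 hs) hne hsum
  have h2 := h (ZMod 10) (by rw [ZMod.card]) _ h1
  apply h2.2.2
  rw [Set.eq_univ_iff_forall]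
  intro g
  obtain ⟨s, hs, hsum⟩ := four_full g
  exact ⟨s, Finset.mem_powerset.1 hs, hsum⟩

end Pool.Agent.Results.MP_71efc4_nt.Disproof
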